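import Pool.Agent.Y230.PS.Auto
import Pool.Agent.Y229.SP4
import Pool.Agent.TH192.DT.Span

set_option autoImplicit false
set_option linter.unusedSectionVars false
set_option linter.unusedVariables false

/-! # Forced roots and polynomial automorphisms -/

namespace Pool.Agent.Zk74.MC

open MvPolynomial Pool.Agent.W574.SM Pool.Agent.W574.HS Pool.Agent.W574.LM Pool.Agent.W574.RO
  Pool.Agent.Y229 Pool.Agent.Y230.PS

variable {σ ι : Type} [Fintype ι] [DecidableEq ι]

/-- the derivation `Φ⁻¹ ∂_i Φ` -/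
theorem conj_pderiv [Fintype σ] [DecidableEq σ] (Φ : MvPolynomial σ ℂ ≃ₐ[ℂ] MvPolynomial σ ℂ)
    (i : σ) (p : MvPolynomial σ ℂ) :
    Φ.symm (pderiv i (Φ p)) = ∑ j, Φ.symm (pderiv i (Φ (X j))) * pderiv j p := by
  have hse : ∀ p, Φ.symm (Φ p) = p := AlgEquiv.symm_apply_apply _
  induction p using MvPolynomial.induction_on with
  | C c =>
    have h1 : Φ (C c) = C c := Φ.commutes c
    rw [h1, pderiv_C, map_zero]
    symm
    refine Finset.sum_eq_zero fun j _ => ?_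
    rw [pderiv_C, mul_zero]
  | add p q hp hq =>
    rw [map_add, map_add, map_add, hp, hq, ← Finset.sum_add_distrib]
    refine Finset.sum_congr rfl fun j _ => ?_
    rw [map_add, mul_add]
  | mul_X p k hp =>
    rw [map_mul, Derivation.leibniz, map_add, smul_eq_mul, smul_eq_mul, map_mul, map_mul, hse, hse,
      hp]
    have h2 : ∀ j, pderiv j (p * X k) = p * (if k = j then 1 else 0) + X k * pderiv j p := by
      intro j
      rw [Derivation.leibniz, smul_eq_mul, smul_eq_mul, pderiv_X]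
      by_cases h : k = j
      · subst h
        rw [if_pos rfl, Pi.single_eq_same]
      · rw [if_neg h, Pi.single_eq_of_ne h]
    simp only [h2, mul_add, Finset.sum_add_distrib]
    congr 1
    · rw [Finset.sum_eq_single k]
      · rw [if_pos rfl]
        ring
      · intro j _ hj
        rw [if_neg fun h => hj h.symm, mul_zero, mul_zero]
      · intro h
        exact absurd (Finset.mem_univ k) h
    · rw [Finset.mul_sum]
      refine Finset.sum_congr rfl fun j _ => ?_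
      ring

/-- conjugation by an automorphism preserves the Weyl algebra -/
theorem auto_conj [Finite σ] (Φ : MvPolynomial σ ℂ ≃ₐ[ℂ] MvPolynomial σ ℂ)
    (Q : Module.End ℂ (MvPolynomial σ ℂ)) (hQ : Q ∈ weyl σ) :
    ∃ R : weyl σ, ∀ p, (R : Module.End ℂ (MvPolynomial σ ℂ)) p = Φ.symm (Q (Φ p)) := by
  classical
  have : Fintype σ := Fintype.ofFinite σ
  have hse : ∀ p, Φ.symm (Φ p) = p := AlgEquiv.symm_apply_apply _
  have hes : ∀ p, Φ (Φ.symm p) = p := AlgEquiv.apply_symm_apply _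
  induction hQ using Algebra.adjoin_induction with
  | mem Q h =>
    rcases h with ⟨i, rfl⟩ | ⟨i, rfl⟩
    · refine ⟨⟨_, mulLeft_memW (Φ.symm (X i))⟩, fun p => ?_⟩
      change Φ.symm (X i) * p = Φ.symm (X i * Φ p)
      rw [map_mul, hse]
    · refine ⟨∑ j, (⟨_, mulLeft_memW (Φ.symm (pderiv i (Φ (X j))))⟩ : weyl σ) *
        ⟨_, Algebra.subset_adjoin (Or.inr ⟨j, rfl⟩)⟩, fun p => ?_⟩
      change _ = Φ.symm (pderiv i (Φ p))
      rw [conj_pderiv, AddSubmonoidClass.coe_finset_sum, LinearMap.sum_apply]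
      rfl
  | algebraMap r =>
    refine ⟨algebraMap ℂ _ r, fun p => ?_⟩
    change r • p = Φ.symm (r • Φ p)
    rw [map_smul, hse]
  | add Q Q' _ _ h h' =>
    obtain ⟨R, hR⟩ := h
    obtain ⟨R', hR'⟩ := h'
    refine ⟨R + R', fun p => ?_⟩
    change (R : Module.End ℂ (MvPolynomial σ ℂ)) p + (R' : Module.End ℂ (MvPolynomial σ ℂ)) p = _
    rw [hR, hR', LinearMap.add_apply, map_add]
  | mul Q Q' _ _ h h' =>
    obtain ⟨R, hR⟩ := h
    obtain ⟨R', hR'⟩ := h'
    refine ⟨R * R', fun p => ?_⟩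
    change (R : Module.End ℂ (MvPolynomial σ ℂ)) ((R' : Module.End ℂ (MvPolynomial σ ℂ)) p) = _
    rw [hR, hR', hes, Module.End.mul_apply]

theorem forced_auto [Finite σ] (Φ : MvPolynomial σ ℂ ≃ₐ[ℂ] MvPolynomial σ ℂ)
    (f : ι → MvPolynomial σ ℂ) (α : ℂ) (h : Forced f α) : Forced (fun j => Φ (f j)) α :=
  fun b hb => h b (functionalEq_auto Φ (auto_conj Φ) f b hb)

theorem eval_auto (Φ : MvPolynomial σ ℂ ≃ₐ[ℂ] MvPolynomial σ ℂ)
    (h0 : ∀ i, constantCoeff (Φ (X i)) = 0) (q : MvPolynomial σ ℂ) :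
    eval 0 (Φ q) = eval 0 q := by
  have h1 : ((aeval (0 : σ → ℂ) : MvPolynomial σ ℂ →ₐ[ℂ] ℂ).comp Φ.toAlgHom) = aeval 0 := by
    apply MvPolynomial.algHom_ext
    intro i
    change aeval (0 : σ → ℂ) (Φ (X i)) = aeval 0 (X i)
    rw [aeval_X]
    have h2 := h0 i
    rw [← MvPolynomial.eval_zero] at h2
    exact h2
  exact congrArg (fun ψ : MvPolynomial σ ℂ →ₐ[ℂ] ℂ => ψ q) h1

theorem sf_auto [Finite σ] (Φ : MvPolynomial σ ℂ ≃ₐ[ℂ] MvPolynomial σ ℂ)
    (h0 : ∀ i, constantCoeff (Φ (X i)) = 0)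
    (f : ι → MvPolynomial σ ℂ) (α : ℂ) (h : SF f 0 α) : SF (fun j => Φ (f j)) 0 α := by
  intro B hB
  have h1 := TA_V Φ (auto_conj Φ) f 1 _ hB
  set ρ : MvPolynomial σ ℂ →+* MvPolynomial σ ℂ := Φ.symm.toAlgHom.toRingHom with hρ
  have hev : ∀ a : ℂ, (B.map ρ).eval (C a) = Φ.symm (B.eval (C a)) := by
    intro a
    have h5 : (C a : MvPolynomial σ ℂ) = ρ (C a) := (Φ.symm.commutes a).symm
    rw [Polynomial.eval_map]
    conv_lhs => rw [h5]
    rw [Polynomial.eval₂_at_apply]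
    rfl
  have h2 : TA Φ (mulB B (G0 fun j => Φ (f j))) = mulB (B.map ρ) (G0 f) := by
    funext s
    rw [mulB, hev]
    change Φ.symm (B.eval (C ((∑ j, s j : ℕ) : ℂ)) * ∏ j, Φ (f j) ^ s j) = _
    have hp : ∏ j, Φ (f j) ^ s j = Φ (∏ j, f j ^ s j) := by
      rw [map_prod]
      exact Finset.prod_congr rfl fun j _ => (map_pow _ _ _).symm
    rw [hp, map_mul, AlgEquiv.symm_apply_apply]
    rfl
  rw [h2] at h1
  have h3 := h _ h1
  rw [hev] at h3
  rw [← eval_auto Φ h0 (Φ.symm (B.eval (C α))), AlgEquiv.apply_symm_apply] at h3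
  exact h3

end Pool.Agent.Zk74.MC
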