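import Pool.Agent.N103.MDefs
import Pool.Agent.R852.MC.Defs
import Pool.Agent.W574.RO.Tail
import Pool.Agent.TH192.DT.IdealTypes
import Pool.Agent.R779.HK.Minors
import Pool.Agent.Y228.RR.Top

set_option autoImplicit false

/-! # Motivic zeta functions, global and at the origin: a class of ideals

`M` is a commutative ring with a unit `L`. The main example is `M = K₀(Var_ℂ)[1/L]`, the
Grothendieck ring of complex varieties, localized at the class `L` of the affine line. An ideal is
given by a finite family of generators (`Fam`); a hypersurface `F = 0` is the family with the only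
member `F`. -/

namespace Pool.Agent.Zk74.MC

open MvPolynomial Pool.Agent.W574.SM Pool.Agent.W574.MO Pool.Agent.W574.CN Pool.Agent.W574.RO
open Pool.Agent.Y229 Pool.Agent.R852.TP Pool.Agent.R852.MC Pool.Agent.N103
open Pool.Agent.TH192.DT (MSpace prodFam)
open Pool.Agent.Y228.RR (FromRees)
open Pool.Agent.R779.HK (HIdx hankel)

/-- The number `-n / a` comes from a Rees divisor `E` of the ideal of the family `f` (a divisor which
is not contracted in the blow-up of the ideal), see `FromRees`: `n / a = (k_E + 1 + l) / N_E`, where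
`k_E` is the multiplicity of `E` in the relative canonical divisor, `N_E` is the order of the ideal
along `E`, and `l < N_E` is the order along `E` of some polynomial (for instance `1`, with `l = 0`). If
`loc = true`, `E` is required to meet the fibre over the origin: for every polynomial `H` with
`H(0) ≠ 0` there is a chart at a general point of such an `E`, over a point at which `H` does not
vanish. -/
def ReesPair (loc : Bool) {σ κ : Type} [Fintype σ] [DecidableEq σ] [Fintype κ] [DecidableEq κ]
    (f : κ → MvPolynomial σ ℂ) (a n : ℕ) : Prop :=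
  ∀ H : MvPolynomial σ ℂ, (bif loc then constantCoeff H ≠ 0 else H = 1) →
    FromRees (fun _ : Unit => f) (fun _ => 1) H n a

/-- The pairs `(N_d, ν_d)` of the ideal `∏_t I_{p t}`, `I_p` the ideal of the minors of size `p`
(Pfaffians of size `2 p`) of the generic matrix, or of the generic symmetric (skew symmetric) matrix:
`ν_d` is the codimension of the locus of the matrices of rank at most `d` (at most `2 d`), and
`N_d = ∑_t max (p t - d, 0) > 0` is the multiplicity of the ideal along it. -/
def DetPair (S : MSpace) {T : ℕ} (p : Fin T → ℕ) (a n : ℕ) : Prop :=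
  ∃ d : Fin S.rk, a = S.idealN p d ∧ n = S.codim d

/-- The pairs `(N_d, ν_d)` of the ideal `∏_t I_{p t}`, `I_p` the ideal of the maximal minors of the
`p × (N + 1 - p)` Hankel matrix in the variables `x_0, …, x_{N - 1}`: `ν_d = N - 2 d` is the
codimension of the locus of the Hankel matrices of rank at most `d`, and
`N_d = ∑_t max (p t - d, 0) > 0`. -/
def HankelPair (N : ℕ) {T : ℕ} (p : Fin T → ℕ) (a n : ℕ) : Prop :=
  ∃ d : ℕ, a = ∑ t, (p t - d) ∧ n = N - 2 * d

/-- The integral of `T ^ (a ord z)` over the `z ∈ ℂ⟦t⟧`: `(1 - L⁻¹) / (1 - L⁻¹ T^a)`; and over the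
`z ∈ t ℂ⟦t⟧`, the set of which has the volume `1`: `(L - 1) L⁻¹ T^a / (1 - L⁻¹ T^a)`. -/
noncomputable def lineZ {M : Type} [CommRing M] (L : Mˣ) (loc : Bool) (a : ℕ) : PowerSeries M :=
  bif loc then mf L a 1 else PowerSeries.C (1 - ((L⁻¹ : Mˣ) : M)) * geo L a 1

/-- `Mot L false A Z`: the ideal `I` generated by the family `A` is in the class described by the
following rules, and `Z = ∫ T^(ord φ^* I) dμ` is its motivic zeta function, the integral over all
arcs `φ` of the affine space, the set of which has the volume `1`. `Mot L true A Z`: the germ of `I` at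
the origin is in the class, and `Z` is the integral over the arcs with the origin `0`, the set of which
has the volume `1`. The series of the volumes of the sets `ord φ^* I ≥ e` is
`tail 1 Z = ∑_e (1 - ∑_{k < e} z_k) T^e` for `Z = ∑_k z_k T^k`. -/
inductive Mot {M : Type} [CommRing M] (L : Mˣ) : Bool → Fam → PowerSeries M → Prop
  /-- the class `MG` of the starting files (global) -/
  | ofMG (A : Fam) (Z : PowerSeries M) (h : MG L A Z) : Mot L false A Z
  /-- the class `GermLin` of the starting files (at the origin) -/
  | ofGermLin (A : Fam) (Z : PowerSeries M) (h : GermLin L A Z) : Mot L true A Z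
  /-- an ideal, not zero, such that the series of the volumes of the sets `ord φ^* I ≥ e` has only
  denominators `1 - L⁻ⁿ Tᵃ` which belong to Rees divisors -/
  | rees (loc : Bool) (σ κ : Type) [Fintype σ] [DecidableEq σ] [Fintype κ] [DecidableEq κ]
      (f : κ → MvPolynomial σ ℂ) (hf : ∃ j, f j ≠ 0) (Z : PowerSeries M)
      (hZ : tail 1 Z ∈ DenRing L (ReesPair loc f)) : Mot L loc ⟨σ, κ, f⟩ Z
  /-- a product of ideals of minors of generic or generic symmetric matrices, or of Pfaffians -/
  | det (S : MSpace) (T : ℕ) (p : Fin T → ℕ) (hp : ∀ t, S.Small (p t)) (Z : PowerSeries M)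
      (hZ : tail 1 Z ∈ DenRing L (DetPair S p)) :
      Mot L false ⟨S.Var, (t : Fin T) → S.Idx (p t), S.prods p⟩ Z
  /-- a product of ideals of minors of generic Hankel matrices -/
  | hankel (N T : ℕ) (p : Fin T → ℕ) (hp : ∀ t, 2 * p t < N) (Z : PowerSeries M)
      (hZ : tail 1 Z ∈ DenRing L (HankelPair N p)) :
      Mot L false ⟨Fin N, (t : Fin T) → HIdx N (p t), prodFam fun t => hankel N (p t)⟩ Z
  /-- an ideal generated by forms of the same degree `d`: the arcs with the origin `0` are the
  `t φ`, and `ord (t φ)^* I = d + ord φ^* I` -/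
  | cone (A : Fam) (d : ℕ) (hd : ∀ j, (A.f j).IsHomogeneous d) (Z : PowerSeries M)
      (h : Mot L false A Z) : Mot L true A (PowerSeries.X ^ d * Z)
  /-- the same, in the other direction -/
  | uncone (A : Fam) (d : ℕ) (hd : ∀ j, (A.f j).IsHomogeneous d) (Z : PowerSeries M)
      (h : Mot L true A (PowerSeries.X ^ d * Z)) : Mot L false A Z
  /-- the sum of two ideals in disjoint sets of variables: `ord` is the minimum of the orders -/
  | sum (loc : Bool) (A B : Fam) (Z W : PowerSeries M) (hA : Mot L loc A Z) (hB : Mot L loc B W) :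
      Mot L loc (A.sum B) (sumSeries Z W)
  /-- the product of two ideals in disjoint sets of variables: the orders are added -/
  | mul (loc : Bool) (A B : Fam) (Z W : PowerSeries M) (hA : Mot L loc A Z)
      (hB : Mot L loc B W) : Mot L loc (A.mul B) (Z * W)
  /-- the hypersurface `h(x) ∏_t (∑_j y_{t, j} f_{t, j}(x)) ^ a_t = 0`, with further variables
  `y_{t, j}`, if the ideal `h ∏_t (f_{t, j})_j ^ a_t` is in the class. Let `φ = (x(t), y(t))` be an arc
  and `e_t = min_j ord f_{t, j}(x(t)) < ∞`. Then `∑_j y_{t, j} f_{t, j} = t^(e_t) ℓ_t(y_t)` with a linear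
  form `ℓ_t`, one of whose coefficients is a unit; for fixed `x(t)`, the `ℓ_t(y_t)` are distributed
  like independent variables. -/
  | form (loc : Bool) (σ τ : Type) [Fintype τ] [DecidableEq τ] [Nonempty τ] (κ : τ → Type)
      [∀ t, Fintype (κ t)] (a : τ → ℕ) (ha : ∀ t, 0 < a t) (h : MvPolynomial σ ℂ)
      (f : (t : τ) → κ t → MvPolynomial σ ℂ) (Z : PowerSeries M)
      (hA : Mot L loc (genFam a h f) Z) :
      Mot L loc (formFam a h f) (Z * ∏ t, lineZ L loc (a t))
  /-- the powers of a principal ideal: the orders are multiplied by `k` -/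
  | pow (loc : Bool) (σ : Type) (g : MvPolynomial σ ℂ) (k : ℕ) (hk : k ≠ 0) (Z : PowerSeries M)
      (hA : Mot L loc ⟨σ, Fin 1, fun _ => g⟩ Z) :
      Mot L loc ⟨σ, Fin 1, fun _ => g ^ k⟩ (PowerSeries.expand k hk Z)
  /-- the variables and the generators may be indexed differently -/
  | equiv (loc : Bool) (A B : Fam) (i : A.σ ≃ B.σ) (k : A.ι ≃ B.ι)
      (h : ∀ j, B.f (k j) = rename i (A.f j)) (Z : PowerSeries M) (hA : Mot L loc A Z) :
      Mot L loc B Z
  /-- polynomial automorphisms `Φ` of the affine space preserve the volumes (their Jacobian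
  determinants are constant); at the origin, `Φ` is required to preserve the origin -/
  | auto (loc : Bool) (A : Fam) (Φ : MvPolynomial A.σ ℂ ≃ₐ[ℂ] MvPolynomial A.σ ℂ)
      (h0 : loc = true → ∀ i, constantCoeff (Φ (X i)) = 0) (Z : PowerSeries M)
      (hA : Mot L loc A Z) : Mot L loc ⟨A.σ, A.ι, fun j => Φ (A.f j)⟩ Z

end Pool.Agent.Zk74.MC
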