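import Pool.Agent.Zk74.MC.Defs
import Pool.Agent.Zk74.MC.Auto
import Pool.Agent.N103.MotCl
import Pool.Agent.R852.MC.Fin
import Pool.Agent.R852.BM.Defs
import Pool.Agent.R779.HK.Main
import Pool.Agent.R852.MX.Roots

set_option autoImplicit false
set_option linter.unusedSectionVars false
set_option linter.unusedVariables false

/-! # The denominators of the motivic zeta functions of the class -/

namespace Pool.Agent.Zk74.MC

open MvPolynomial Pool.Agent.W574.MO Pool.Agent.W574.SM Pool.Agent.W574.LM Pool.Agent.W574.HS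
  Pool.Agent.W574.RO Pool.Agent.W574.CN Pool.Agent.Y229 Pool.Agent.R852.TP Pool.Agent.R852.TL
  Pool.Agent.R852.MC Pool.Agent.N103
open Pool.Agent.R852.PP (cntR one_le_cntR)
open Pool.Agent.Y230.PS (FM single_of_isB)
open Pool.Agent.Y230.TH (fm_one)
open Pool.Agent.H628R4.TP (IsBFunction IsLocalBFunction)
open Pool.Agent.TH192.DT (MSpace prodFam ratU geoU isLocEq_of_isFunctionalEq)
open Pool.Agent.Y228.RR (FromRees root_of_from)
open Pool.Agent.R779.HK (HIdx hankel hankel_ne)
open Pool.Agent.R852.MX (locEq_reindex)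

/-- the forced roots, global and at the origin -/
def FR (loc : Bool) {σ ι : Type} [Fintype ι] (f : ι → MvPolynomial σ ℂ) (α : ℂ) : Prop :=
  bif loc then SF f 0 α else Forced f α

/-- the denominators which belong to forced roots -/
def KR (loc : Bool) {σ ι : Type} [Fintype ι] (f : ι → MvPolynomial σ ℂ) (a n : ℕ) : Prop :=
  FR loc f (-(n : ℂ) / a)

section blocks

variable {σ κ : Type} [Fintype κ] [DecidableEq κ]

theorem fr_of_roots [Finite σ] (loc : Bool) (f : κ → MvPolynomial σ ℂ) (hf : ∃ j, f j ≠ 0) (α : ℂ)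
    (h : ∀ (H : MvPolynomial σ ℂ) (b : Polynomial ℂ),
      (bif loc then constantCoeff H ≠ 0 else H = 1) → IsLocEq H f b → b.eval α = 0) :
    FR loc f α := by
  cases loc with
  | false => exact fun b hb => h 1 b rfl (isLocEq_of_isFunctionalEq hb)
  | true =>
    refine sf_of_local f 0 α (fun H b hb hH => h H b ?_ hb) (exists_fe f hf)
    rw [MvPolynomial.eval_zero] at hH
    exact hH

theorem fr_rees [Fintype σ] [DecidableEq σ] (loc : Bool) (f : κ → MvPolynomial σ ℂ)
    (hf : ∃ j, f j ≠ 0) (a n : ℕ) (ha : 1 ≤ a) (h : ReesPair loc f a n) :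
    FR loc f (-(n : ℂ) / a) := by
  refine fr_of_roots loc f hf _ fun H b hH hb => ?_
  refine root_of_from (fun _ : Unit => 1) (fun _ : Unit => f) b H ?_ n a ha (h H hH)
  let u : Unique (Σ _ : Unit, Fin 1) :=
    ⟨⟨⟨(), 0⟩⟩, by rintro ⟨⟨⟩, i⟩; rw [Subsingleton.elim i 0]; rfl⟩
  refine locEq_reindex (Equiv.funUnique (Σ _ : Unit, Fin 1) κ) H _ _ (fun j => ?_) b hb
  change f (j default) = ∏ q : (Σ _ : Unit, Fin 1), f (j q)
  exact (Fintype.prod_unique (fun q : (Σ _ : Unit, Fin 1) => f (j q))).symm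

end blocks

theorem prods_ne (S : MSpace) (T : ℕ) (p : Fin T → ℕ) (hp : ∀ t, S.Small (p t)) :
    ∃ j, S.prods p j ≠ 0 := by
  choose j hj using fun t => S.minors_ne (p t) (hp t)
  refine ⟨j, ?_⟩
  change ∏ t, S.minors (p t) (j t) ≠ 0
  exact Finset.prod_ne_zero_iff.2 fun t _ => hj t

theorem fr_det (S : MSpace) (T : ℕ) (p : Fin T → ℕ) (hp : ∀ t, S.Small (p t)) (a n : ℕ)
    (ha : 1 ≤ a) (h : DetPair S p a n) : Forced (S.prods p) (-(n : ℂ) / a) := by
  obtain ⟨d, rfl, rfl⟩ := h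
  intro b hb
  have h1 := S.ideal_roots_global T p hp b hb d 0 (by omega)
  rwa [Nat.cast_zero, add_zero] at h1

theorem hprods_ne (N T : ℕ) (p : Fin T → ℕ) (hp : ∀ t, 2 * p t < N) :
    ∃ j, prodFam (fun t => hankel N (p t)) j ≠ 0 := by
  choose j hj using fun t => hankel_ne N (p t) (hp t)
  exact ⟨j, Finset.prod_ne_zero_iff.2 fun t _ => hj t⟩

theorem fr_hankel (N T : ℕ) (p : Fin T → ℕ) (hp : ∀ t, 2 * p t < N) (a n : ℕ)
    (ha : 1 ≤ a) (h : HankelPair N p a n) :
    Forced (prodFam fun t => hankel N (p t)) (-(n : ℂ) / a) := by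
  obtain ⟨d, rfl, rfl⟩ := h
  intro b hb
  have e : ∑ t, 1 * (p t - d) = ∑ t, (p t - d) := Finset.sum_congr rfl fun t _ => one_mul _
  have h2 : IsLocEq 1 (prodFam fun q : (Σ _t : Fin T, Fin 1) => hankel N (p q.1)) b := by
    refine locEq_reindex ((Equiv.piCurry (fun (t : Fin T) (_ : Fin 1) => HIdx N (p t))).trans
      (Equiv.piCongrRight fun t => Equiv.piUnique (fun _ : Fin 1 => HIdx N (p t)))) 1 _ _ ?_ b
        (isLocEq_of_isFunctionalEq hb)
    intro J
    change ∏ t, hankel N (p t) (J ⟨t, default⟩) =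
      ∏ q : (Σ _t : Fin T, Fin 1), hankel N (p q.1) (J q)
    exact ((Fintype.prod_sigma (fun q : (Σ _t : Fin T, Fin 1) =>
      hankel N (p q.1) (J q))).trans (Finset.prod_congr rfl fun t _ =>
        Fintype.prod_unique (fun i : Fin 1 => hankel N (p t) (J ⟨t, i⟩)))).symm
  have h3 := Pool.Agent.R779.HK.ideal_roots N d p (fun _ => 1) hp b 1
    (by rw [map_one]; exact one_ne_zero) h2 0 (by rw [e]; omega)
  rw [e, Nat.cast_zero, add_zero] at h3
  exact h3

section ops

variable {σ τ ι κ : Type} [Fintype ι] [DecidableEq ι] [Fintype κ] [DecidableEq κ]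

theorem zero_elim (A B : Type) : (Sum.elim (0 : A → ℂ) (0 : B → ℂ)) = 0 := by
  funext x
  rcases x with x | x <;> rfl

theorem fr_sum [Finite σ] [Finite τ] (loc : Bool) (f : ι → MvPolynomial σ ℂ)
    (g : κ → MvPolynomial τ ℂ) (α β : ℂ) (h1 : FR loc f α) (h2 : FR loc g β) :
    FR loc (sumf f g) (α + β) := by
  cases loc with
  | false => exact forced_sum f g _ _ h1 h2
  | true =>
    have h := sf_sum f g 0 0 _ _ h1 h2
    rw [zero_elim] at h
    exact h

theorem fr_mul [Finite σ] [Finite τ] (loc : Bool) (f : ι → MvPolynomial σ ℂ)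
    (g : κ → MvPolynomial τ ℂ) (hg : ∃ k, g k ≠ 0) (α : ℂ) (h1 : FR loc f α) :
    FR loc (mulf f g) α := by
  cases loc with
  | false => exact fun b hb => h1 b (functionalEq_mul f g hg b hb)
  | true =>
    have h := sf_mul f g 0 0 _ h1 hg
    rw [zero_elim] at h
    exact h

theorem fr_mul' [Finite σ] [Finite τ] (loc : Bool) (f : ι → MvPolynomial σ ℂ)
    (g : κ → MvPolynomial τ ℂ) (hf : ∃ k, f k ≠ 0) (α : ℂ) (h1 : FR loc g α) :
    FR loc (mulf f g) α := by
  cases loc with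
  | false => exact fun b hb => h1 b (functionalEq_mul' f g hf b hb)
  | true =>
    have h := sf_mul' f g 0 0 _ h1 hf
    rw [zero_elim] at h
    exact h

theorem fr_cone [Finite σ] (f : ι → MvPolynomial σ ℂ) (d : ℕ)
    (hd : ∀ j, (f j).IsHomogeneous d) (α : ℂ) : FR true f α ↔ FR false f α := by
  constructor
  · intro h b hb
    exact SF.locEq h 1 b (isLocEq_of_isFunctionalEq hb) (by rw [map_one]; exact one_ne_zero)
  · intro h
    exact sf_of_homog f d hd α h

theorem fr_equiv [Finite σ] (loc : Bool) (e : σ ≃ τ) (k : ι ≃ κ) (f : ι → MvPolynomial σ ℂ)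
    (g : κ → MvPolynomial τ ℂ) (h : ∀ j, g (k j) = rename e (f j)) (α : ℂ) (h1 : FR loc f α) :
    FR loc g α := by
  cases loc with
  | false => exact fun b hb => h1 b (functionalEq_equiv e k f g h b hb)
  | true => exact sf_equiv e k f g h 0 _ h1

end ops

section form

variable {σ τ : Type} [Fintype τ] [DecidableEq τ] [Nonempty τ] {κ : τ → Type}
  [∀ t, Fintype (κ t)]

theorem fr_form [Finite σ] (loc : Bool) (a : τ → ℕ) (h : MvPolynomial σ ℂ)
    (f : (t : τ) → κ t → MvPolynomial σ ℂ) (ha : ∀ t, 0 < a t)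
    (hne : ∃ j, (genFam a h f).f j ≠ 0) (α : ℂ) (h1 : FR loc (genFam a h f).f α) :
    FR loc (formFam a h f).f α := by
  classical
  cases loc with
  | false =>
    have h2 := fm_form a h f ha hne α 1 ((fm_one _ _).2 h1)
    exact (fm_one _ _).1 (h2.mono (Nat.le_add_right _ _))
  | true =>
    have hF := form_ne' a h f ha hne
    have hfin' : Finite ((Σ t, κ t) ⊕ σ) := inferInstance
    have hFne : ∃ j, (formFam a h f).f j ≠ 0 := ⟨(0 : Fin 1), hF⟩
    exact sf_of_lm _ hFne _ _ (Nat.le_add_right _ _)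
      (lm_form a h f ha hne _ 1 (lm_of_sf _ _ h1))

theorem fr_strict [Finite σ] (loc : Bool) (a : τ → ℕ) (h : MvPolynomial σ ℂ)
    (f : (t : τ) → κ t → MvPolynomial σ ℂ) (ha : ∀ t, 0 < a t)
    (hne : ∃ j, (genFam a h f).f j ≠ 0) (t : τ) :
    FR loc (formFam a h f).f (-((1 : ℕ) : ℂ) / a t) := by
  classical
  cases loc with
  | false =>
    have h4 := fm_form a h f ha hne (-((1 : ℕ) : ℂ) / a t) 0 (fun b hb => by
      rw [pow_zero]; exact one_dvd _)
    refine (fm_one _ _).1 (h4.mono ?_)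
    rw [zero_add]
    exact one_le_cntR' a ha t _ (by push_cast; ring)
  | true =>
    have hF := form_ne' a h f ha hne
    have hfin' : Finite ((Σ t, κ t) ⊕ σ) := inferInstance
    have hFne : ∃ j, (formFam a h f).f j ≠ 0 := ⟨(0 : Fin 1), hF⟩
    have h2 := lm_form a h f ha hne (-((1 : ℕ) : ℂ) / a t) 0 (lm_zero _ _)
    refine sf_of_lm _ hFne _ _ ?_ h2
    rw [zero_add]
    exact one_le_cntR' a ha t _ (by push_cast; ring)

theorem fr_pow [Finite σ] (loc : Bool) (g : MvPolynomial σ ℂ) (hg : g ≠ 0) (k : ℕ) (hk : k ≠ 0)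
    (a n : ℕ) (ha : 1 ≤ a) (h1 : KR loc (fun _ : Fin 1 => g) a n) :
    KR loc (fun _ : Fin 1 => g ^ k) (k * a) n := by
  cases loc with
  | false =>
    intro b hb
    have h3 := h1 _ (single_of_isB _ _ (isB_shift g hg k 0 (Nat.pos_of_ne_zero hk) b
      (isB_of_single _ b hb)))
    rw [← exp_root k a n hk ha] at h3
    have h4 := root_of_shift b k 0 hk _ 0 h3
    rwa [Nat.cast_zero, zero_div, sub_zero] at h4
  | true =>
    refine sf_of_local _ 0 _ (fun H b hb hH => ?_) (exists_fe _ ⟨(0 : Fin 1), pow_ne_zero k hg⟩)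
    have h3 := SF.locEq h1 H _ (loc_shift g hg k 0 (Nat.pos_of_ne_zero hk) H b hb) hH
    rw [← exp_root k a n hk ha] at h3
    have h4 := root_of_shift b k 0 hk _ 0 h3
    rwa [Nat.cast_zero, zero_div, sub_zero] at h4

end form

variable {M : Type} [CommRing M] {L : Mˣ}

theorem tail_lineZ (loc : Bool) (a : ℕ) (ha : 1 ≤ a) {K : ℕ → ℕ → Prop} (hK : K a 1) :
    tail 1 (lineZ L loc a) ∈ DenRing L K := by
  cases loc with
  | false =>
    change tail 1 (PowerSeries.C (1 - ((L⁻¹ : Mˣ) : M)) * geo L a 1) ∈ DenRing L K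
    rw [tail_power a ha]
    exact (DenRing L _).add_mem (DenRing L _).one_mem ((DenRing L _).mul_mem
      ((DenRing L _).mul_mem ((DenRing L _).mul_mem (C_mem _) X_mem) (X_pow_sum_mem a))
      (geo_mem ha le_rfl hK))
  | true => exact tail_mf_mem a ha hK

theorem tail_X (d : ℕ) (Z : PowerSeries M) :
    tail 1 (PowerSeries.X ^ d * Z) =
      (∑ i ∈ Finset.range d, PowerSeries.X ^ i) + PowerSeries.X ^ d * tail 1 Z := by
  symm
  apply eq_tail
  have h1 := geom_sum_mul (PowerSeries.X : PowerSeries M) d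
  have h2 := tail_eq 1 Z
  rw [map_one] at h2 ⊢
  linear_combination -h1 + PowerSeries.X ^ d * h2

/-- **The denominators of the motivic zeta functions of the class.** -/
theorem mot_main (loc : Bool) (A : Fam) (Z : PowerSeries M) (h : Mot L loc A Z) :
    Finite A.σ ∧ (∃ j, A.f j ≠ 0) ∧ tail 1 Z ∈ DenRing L (KR loc A.f) := by
  classical
  induction h with
  | ofMG A Z h => exact mg_main A Z h
  | ofGermLin A Z h => exact germLin_main A Z h
  | rees loc σ κ f hf Z hZ =>
    exact ⟨inferInstanceAs (Finite σ), hf,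
      denRing_mono (fun a n ha _ h => fr_rees loc f hf a n ha h) hZ⟩
  | det S T p hp Z hZ =>
    exact ⟨inferInstanceAs (Finite S.Var), prods_ne S T p hp,
      denRing_mono (fun a n ha _ h => fr_det S T p hp a n ha h) hZ⟩
  | hankel N T p hp Z hZ =>
    exact ⟨inferInstanceAs (Finite (Fin N)), hprods_ne N T p hp,
      denRing_mono (fun a n ha _ h => fr_hankel N T p hp a n ha h) hZ⟩
  | cone A d hd Z h ih =>
    obtain ⟨hfin, hne, hZ⟩ := ih
    refine ⟨hfin, hne, ?_⟩
    rw [tail_X]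
    exact (DenRing L _).add_mem (X_pow_sum_mem d) ((DenRing L _).mul_mem
      ((DenRing L _).pow_mem X_mem d)
      (denRing_mono (fun a n _ _ h => (fr_cone A.f d hd _).2 h) hZ))
  | uncone A d hd Z h ih =>
    obtain ⟨hfin, hne, hZ⟩ := ih
    exact ⟨hfin, hne, denRing_mono (fun a n _ _ h => (fr_cone A.f d hd _).1 h)
      (tail_X_pow_mul d _ hZ)⟩
  | sum loc A B Z W hA hB ihA ihB =>
    obtain ⟨fA, hne, hZ⟩ := ihA
    obtain ⟨fB, -, hW⟩ := ihB
    refine ⟨inferInstanceAs (Finite (A.σ ⊕ B.σ)), sum_ne hne, ?_⟩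
    rw [tail_min]
    refine had_mem hZ hW fun a n a' n' l ha hn hK ha' hn' hK' hl hal hal' => ?_
    have h1 := fr_sum loc A.f B.f _ _ hK hK'
    rw [add_frac ha ha' hl hal hal'] at h1
    exact h1
  | mul loc A B Z W hA hB ihA ihB =>
    obtain ⟨fA, hneA, hZ⟩ := ihA
    obtain ⟨fB, hneB, hW⟩ := ihB
    exact ⟨inferInstanceAs (Finite (A.σ ⊕ B.σ)), mul_ne hneA hneB,
      tail_mul_mem (denRing_mono (fun a n _ _ h => fr_mul loc A.f B.f hneB _ h) hZ)
        (denRing_mono (fun a n _ _ h => fr_mul' loc A.f B.f hneA _ h) hW)⟩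
  | form loc σ τ κ a ha h f Z hA ihA =>
    obtain ⟨fA, hne, hZ⟩ := ihA
    have hfin : Finite σ := fA
    have hF := form_ne' a h f ha hne
    refine ⟨inferInstanceAs (Finite ((Σ t, κ t) ⊕ σ)), ⟨(0 : Fin 1), hF⟩,
      tail_mul_mem (denRing_mono (fun x n _ _ h1 => fr_form loc a h f ha hne _ h1) hZ)
        (tail_prod_mem _ _ fun t _ => tail_lineZ loc (a t) (ha t)
          (fr_strict loc a h f ha hne t))⟩
  | pow loc σ g k hk Z hA ihA =>
    obtain ⟨fA, ⟨j, hj⟩, hZ⟩ := ihA
    have hfin : Finite σ := fA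
    have hg : g ≠ 0 := hj
    exact ⟨hfin, ⟨(0 : Fin 1), pow_ne_zero k hg⟩, tail_expand_mem k hk
      (fun a n ha hn h1 => fr_pow loc g hg k hk a n ha h1) _ hZ⟩
  | equiv loc A B i k h Z hA ihA =>
    obtain ⟨fA, ⟨j, hj⟩, hZ⟩ := ihA
    refine ⟨Finite.of_equiv _ i, ⟨k j, ?_⟩,
      denRing_mono (fun a n _ _ hS => fr_equiv loc i k A.f B.f h _ hS) hZ⟩
    rw [h, Ne, map_eq_zero_iff _ (rename_injective _ i.injective)]
    exact hj
  | auto loc A Φ h0 Z hA ihA =>
    obtain ⟨fA, ⟨j, hj⟩, hZ⟩ := ihA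
    refine ⟨fA, ⟨j, fun h => hj ?_⟩, denRing_mono (fun a n _ _ hS => ?_) hZ⟩
    · have h1 : Φ (A.f j) = 0 := h
      rwa [map_eq_zero_iff _ Φ.injective] at h1
    · cases loc with
      | false => exact forced_auto Φ A.f _ hS
      | true => exact sf_auto Φ (h0 rfl) A.f _ hS

/-- from `DenRing` to `ratU` -/
theorem ratU_of_denRing {b : Polynomial ℂ} {Z : PowerSeries M}
    (h : Z ∈ DenRing L (RootPair b)) : Z ∈ ratU L (Pool.Agent.R852.BM.RootPairs b) := by
  have h1 : DenRing L (RootPair b) ≤ (ratU L (Pool.Agent.R852.BM.RootPairs b)).toSubring := by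
    refine Subring.closure_le.2 ?_
    rintro u (⟨p, rfl⟩ | ⟨a, n, ha, hn, hK, hu⟩)
    · change (Polynomial.toPowerSeries p : PowerSeries M) ∈
        ratU L (Pool.Agent.R852.BM.RootPairs b)
      induction p using Polynomial.induction_on with
      | C m =>
        rw [Polynomial.coe_C]
        exact Subalgebra.algebraMap_mem _ m
      | add p q hp hq =>
        rw [Polynomial.coe_add]
        exact Subalgebra.add_mem _ hp hq
      | monomial k m _ =>
        have hX : (PowerSeries.X : PowerSeries M) ∈ ratU L (Pool.Agent.R852.BM.RootPairs b) :=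
          Algebra.subset_adjoin (Or.inl rfl)
        rw [Polynomial.coe_mul, Polynomial.coe_C, Polynomial.coe_pow, Polynomial.coe_X]
        exact Subalgebra.mul_mem _ (Subalgebra.algebraMap_mem _ m) (Subalgebra.pow_mem _ hX _)
    · change u ∈ ratU L (Pool.Agent.R852.BM.RootPairs b)
      have h2 : u = geoU L (-(n : ℤ)) (a : ℤ) := by
        have h3 : (1 - PowerSeries.C ((L ^ (-(n : ℤ)) : Mˣ) : M) *
            PowerSeries.X ^ (a : ℤ).toNat) * geoU L (-(n : ℤ)) (a : ℤ) = 1 := by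
          rw [geoU]
          refine PowerSeries.mul_invOfUnit _ 1 ?_
          rw [Int.toNat_natCast, map_sub, map_one, map_mul, map_pow,
            PowerSeries.constantCoeff_X, zero_pow (by omega), mul_zero, sub_zero, Units.val_one]
        have h4 : ((L ^ (-(n : ℤ)) : Mˣ) : M) = ((L⁻¹ ^ n : Mˣ) : M) := by
          rw [zpow_neg, zpow_natCast, inv_pow]
        rw [h4, Int.toNat_natCast] at h3
        calc u = u * ((1 - PowerSeries.C ((L⁻¹ ^ n : Mˣ) : M) * PowerSeries.X ^ a) *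
              geoU L (-(n : ℤ)) (a : ℤ)) := by rw [h3, mul_one]
          _ = _ := by rw [← mul_assoc, hu, one_mul]
      rw [h2]
      refine Algebra.subset_adjoin (Or.inr ⟨(-(n : ℤ), (a : ℤ)), ⟨?_, ?_, ?_⟩, rfl⟩)
      · change -(n : ℤ) < 0
        omega
      · change 0 < (a : ℤ)
        omega
      · have := hK
        rw [RootPair] at this
        push_cast
        exact this
  exact h1 h

/-- hypersurfaces -/
theorem mot_hyp {σ : Type} (F : MvPolynomial σ ℂ) (Z : PowerSeries M)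
    (h : Mot L false ⟨σ, Fin 1, fun _ => F⟩ Z) (b : Polynomial ℂ) (hb : IsBFunction F b) (c : M) :
    PowerSeries.C c * Z ∈ ratU L (Pool.Agent.R852.BM.RootPairs b) := by
  obtain ⟨-, -, hm⟩ := mot_main false _ Z h
  exact ratU_of_denRing ((DenRing L _).mul_mem (C_mem _) (denRing_mono
    (fun a n _ _ h => h b (single_of_isB _ _ hb)) (mem_of_tail hm)))

/-- hypersurfaces at the origin -/
theorem mot_hyp_local {σ : Type} (F : MvPolynomial σ ℂ) (Z : PowerSeries M)
    (h : Mot L true ⟨σ, Fin 1, fun _ => F⟩ Z) (b : Polynomial ℂ) (hb : IsLocalBFunction F b)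
    (c : M) : PowerSeries.C c * Z ∈ ratU L (Pool.Agent.R852.BM.RootPairs b) := by
  obtain ⟨hfin, ⟨j, hj⟩, hm⟩ := mot_main true _ Z h
  exact ratU_of_denRing ((DenRing L _).mul_mem (C_mem _) (denRing_mono
    (fun a n _ _ h => sf_root hfin F hj _ h b hb) (mem_of_tail hm)))

end Pool.Agent.Zk74.MC
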